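import Pool.Agent.R490.Moms
import Pool.Agent.L5helper4.RG.Om

set_option autoImplicit false

/-!
# The variance of almost primes in the residue classes of EVERY modulus, in the range `X ≤ C Q log Q`

For the primes Hooley's conjecture says that `∑ (ψ(X; Q, A) - X / φ(Q)) ²` over the reduced classes `A` modulo `Q`
is asymptotic to `X log Q`; if the average number `λ` of the primes `≤ X` in a reduced class is bounded this is the
statement that the variance of the number of the primes in a class is asymptotic to the mean `λ`.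

For the integers without prime factors `≤ z = Q ^ (1 / r)` and `r ≥ r₀(ε)` this is proved here for EVERY modulus
`Q`, and not only for all reduced classes together but for the classes in any interval of length `≥ Q ^ θ`, with all
the higher moments and the limit distribution (which is the Poisson distribution).
-/

namespace Pool.Agent.Results.MP_5d318d_nt.AlmostPrimeVariance

open Finset Filter

/-- `n` has no prime factor `≤ z`. -/
def Rough (z n : ℕ) : Prop := ∀ p : ℕ, p.Prime → p ≤ z → ¬ p ∣ n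

open Classical in
/-- The number of the `n = A + Q h`, `1 ≤ h ≤ T`, without prime factors `≤ z`. -/
noncomputable def P (Q z T A : ℕ) : ℕ := ((Icc 1 T).filter (fun h => Rough z (A + Q * h))).card

/-- The product of `1 - 1 / p` over the primes `p ≤ z` which do not divide `Q`. -/
noncomputable def V (Q z : ℕ) : ℝ :=
  ∏ p ∈ (range (z + 1)).filter (fun p => p.Prime ∧ ¬ p ∣ Q), (1 - 1 / (p : ℝ))

/-- The integers in `(Z, Z + Y]` which are prime to `Q` (for `Y = Q` one for each reduced residue class). -/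
def R (Q Z Y : ℕ) : Finset ℕ := (Ioc Z (Z + Y)).filter (fun A => A.Coprime Q)

lemma P_eq (Q z T A : ℕ) : Pool.Agent.R490.Cls.cnt Q z T A = P Q z T A := rfl

lemma V_eq (Q z : ℕ) : Pool.Agent.R490.Cls.V Q z = V Q z := rfl

lemma R_eq (Q Z Y : ℕ) : Pool.Agent.R490.Lone.Om Q Z Y = R Q Z Y := rfl

open Classical in
/-- (1) An integer `1 ≤ n ≤ Q ^ B` without prime factors `≤ Q ^ (1 / r)` has at most `B r` prime factors.
(2) Let `θ, x₀, ε > 0` and `K` be given, `λ = T V`, `N = Y φ(Q) / Q`. There is `r₀` such that for `r ≥ r₀`, ALL large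
moduli `Q`, `z = Q ^ (1 / r)` and all intervals `(Z, Z + Y]` with `Y ≥ Q ^ θ`: (a) for all `T` the mean value of `P` is
`λ` up to the factor `1 ± ε`; (b) if `λ ≤ x₀` the variance is `λ` up to `ε`; (c) if `λ ≤ x₀` the binomial moments of
order `k ≤ K` are `λ ^ k / k!` up to `ε`; (d) if `λ ≤ x₀` the distribution is that of Poisson up to `ε`. -/
theorem result :
    (∀ B r Q n : ℕ, 1 ≤ r → 2 ≤ Q → 1 ≤ n → n ≤ Q ^ B → Rough ⌊(Q : ℝ) ^ (1 / (r : ℝ))⌋₊ n →
      n.primeFactorsList.length ≤ B * r) ∧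
    ∀ θ x0 ε : ℝ, ∀ K : ℕ, 0 < θ → 0 < ε → ∃ r0 : ℕ, 2 ≤ r0 ∧ ∀ r : ℕ, r0 ≤ r →
      ∀ᶠ Q : ℕ in atTop, ∀ z : ℕ, z = ⌊(Q : ℝ) ^ (1 / (r : ℝ))⌋₊ → ∀ Z Y : ℕ, (Q : ℝ) ^ θ ≤ Y →
      (∀ T : ℕ, |∑ A ∈ R Q Z Y, (P Q z T A : ℝ) - T * V Q z * (Y * ((Q.totient : ℝ) / Q))| ≤
        ε * (T * V Q z * (Y * ((Q.totient : ℝ) / Q)))) ∧
      ∀ T : ℕ, T * V Q z ≤ x0 →
        |∑ A ∈ R Q Z Y, ((P Q z T A : ℝ) - T * V Q z) ^ 2 - Y * ((Q.totient : ℝ) / Q) * (T * V Q z)| ≤
          ε * (Y * ((Q.totient : ℝ) / Q)) ∧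
        (∀ k ≤ K, |∑ A ∈ R Q Z Y, ((P Q z T A).choose k : ℝ) -
          Y * ((Q.totient : ℝ) / Q) * ((T * V Q z) ^ k / k.factorial)| ≤ ε * (Y * ((Q.totient : ℝ) / Q))) ∧
        ∀ J : Finset ℕ, |(((R Q Z Y).filter (fun A => P Q z T A ∈ J)).card : ℝ) -
          Y * ((Q.totient : ℝ) / Q) * ∑ j ∈ J, Real.exp (-(T * V Q z)) * (T * V Q z) ^ j / j.factorial| ≤
          ε * (Y * ((Q.totient : ℝ) / Q)) := by
  refine ⟨?_, ?_⟩
  · intro B r Q n hr hQ hn hnB h
    exact Pool.Agent.L5helper4.RG.few hQ hr hn hnB (fun p hp hd => by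
      by_contra hle
      exact h p hp (not_lt.1 hle) hd)
  · intro θ x0 ε K hθ hε
    obtain ⟨r1, hr1, h1⟩ := Pool.Agent.R490.Mean.mean θ ε hθ hε
    obtain ⟨r2, hr2, h2⟩ := Pool.Agent.R490.Moms.var θ x0 ε hθ hε
    obtain ⟨r3, hr3, h3⟩ := Pool.Agent.R490.Cls.law θ x0 ε hθ hε
    choose r4 hr4 h4 using fun k => Pool.Agent.R490.Moms.mom θ x0 ε k hθ hε
    refine ⟨max (max r1 r2) (max r3 ((range (K + 1)).sup r4)), ?_, ?_⟩
    · exact hr1.trans ((le_max_left _ _).trans (le_max_left _ _))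
    intro r hr
    have g1 : r1 ≤ r := ((le_max_left _ _).trans (le_max_left _ _)).trans hr
    have g2 : r2 ≤ r := ((le_max_right _ _).trans (le_max_left _ _)).trans hr
    have g3 : r3 ≤ r := ((le_max_left _ _).trans (le_max_right _ _)).trans hr
    have g4 : ∀ k ∈ range (K + 1), r4 k ≤ r := fun k hk =>
      (Finset.le_sup hk).trans (((le_max_right _ _).trans (le_max_right _ _)).trans hr)
    have h4' : ∀ᶠ Q : ℕ in atTop, ∀ k ∈ range (K + 1), _ :=
      (Filter.eventually_all_finset (range (K + 1))).2 (fun k hk => h4 k r (g4 k hk))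
    filter_upwards [h1 r g1, h2 r g2, h3 r g3, h4'] with Q a1 a2 a3 a4
    intro z hz Z Y hY
    refine ⟨fun T => a1 z hz Z Y hY T, fun T hT => ⟨a2 z hz Z Y hY T hT, ?_, ?_⟩⟩
    · intro k hk
      exact a4 k (mem_range.2 (by omega)) z hz Z Y hY T hT
    · intro J
      have b := a3 z hz Z Y hY T hT J
      rw [V_eq] at b
      convert b using 5
      unfold R
      rw [Finset.filter_filter]
      congr!

end Pool.Agent.Results.MP_5d318d_nt.AlmostPrimeVariance
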