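import Pool.Agent.L5helper10.QV.Cor

/-!
# A lower bound for the mean variance of primes in progressions, for every modulus

Unconditionally and for EVERY large modulus `Q`: the normalised variance `G(X, Q) / (X log Q)` is, on average over
`log X`, at least a positive proportion of its conjectured value `1`. In Hooley's range `Q < X < Q ²` (the case `ℓ = 2`)
the proportion is `2 / 3`; it tends to `1` for long ranges. The proof combines a rank inequality for Gaussian sums over
the zeros of the Dirichlet `L`-functions modulo `Q` with a zero density estimate; see `Pool.Agent.L5helper10.QV`.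
-/

set_option autoImplicit false

namespace Pool.Agent.Results.MP_5d318d_nt.EveryModulusMeanVariance

open Finset MeasureTheory

/-- `ψ(X; Q, A)`: the sum of `Λ(n)` over the `n ≤ X` with `n ≡ A mod Q`. -/
noncomputable def psi (X : ℝ) (Q A : ℕ) : ℝ :=
  ∑ n ∈ (Icc 1 ⌊X⌋₊).filter (fun n => n ≡ A [MOD Q]), ArithmeticFunction.vonMangoldt n

/-- `G(X, Q)`: the sum of `(ψ(X; Q, A) - X / φ(Q)) ²` over the reduced residue classes `A` modulo `Q`. -/
noncomputable def G (X : ℝ) (Q : ℕ) : ℝ :=
  ∑ A ∈ (range Q).filter (fun A => A.Coprime Q), (psi X Q A - X / Nat.totient Q) ^ 2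

/-- For every `ℓ > 1` and `ε > 0` and for all sufficiently large integers `Q`, the integral over `1 < α < ℓ` of
`(ℓ - α) G(X, Q) / (X log Q)`, where `X = Q ^ α`, is at least `(ℓ - 1) ² / 2 - 1 / 6 - ε`. If `G(X, Q)` were equal to
`X log Q` the integral would be `(ℓ - 1) ² / 2`. -/
theorem result : ∀ ℓ : ℝ, 1 < ℓ → ∀ ε : ℝ, 0 < ε → ∃ Q₀ : ℕ, ∀ Q : ℕ, Q₀ ≤ Q →
    (ℓ - 1) ^ 2 / 2 - 1 / 6 - ε ≤
      ∫ α in (1 : ℝ)..ℓ, (ℓ - α) * (G ((Q : ℝ) ^ α) Q / ((Q : ℝ) ^ α * Real.log Q)) := by
  intro ℓ hℓ ε hε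
  exact Filter.eventually_atTop.1 (Pool.Agent.L5helper10.QV.cesaro_ev ℓ ε hℓ hε)

end Pool.Agent.Results.MP_5d318d_nt.EveryModulusMeanVariance
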