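import Pool.Agent.L5helper10.EM.Main

/-!
# An unconditional lower bound for the variance of primes in progressions, for every modulus

For every modulus `Q ≤ X` and every real centre `y` the sum of `(ψ(X; Q, A) - y) ²` over the reduced residue classes `A`
modulo `Q` is at least `X (3/2 log Q - log X - ε log X)`, if `X` is large in terms of `ε`.
The proof is in the files `Pool.Agent.H336R2.V` of the starting library (centre `X / φ(Q)`) and
`Pool.Agent.L5helper10.EM.Main` (every centre).
-/

set_option autoImplicit false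

namespace Pool.Agent.Results.MP_5d318d_nt.EveryModulusVariance

open Finset

/-- `ψ(X; Q, A)`: the sum of `Λ(n)` over the `n ≤ X` with `n ≡ A mod Q`. -/
noncomputable def psi (X : ℝ) (Q A : ℕ) : ℝ :=
  ∑ n ∈ (Icc 1 ⌊X⌋₊).filter (fun n => n ≡ A [MOD Q]), ArithmeticFunction.vonMangoldt n

/-- For every `ε > 0` and all sufficiently large real `X`: for EVERY integer `1 ≤ Q ≤ X` and every real `y` the sum of
`(ψ(X; Q, A) - y) ²` over the reduced residue classes `A` modulo `Q` is at least `X (3/2 log Q - log X - ε log X)`. For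
`y = X / φ(Q)` the sum is `G(X, Q)`. -/
theorem result : ∀ ε : ℝ, 0 < ε → ∃ X₀ : ℝ, ∀ X : ℝ, X₀ ≤ X → ∀ Q : ℕ, 1 ≤ Q → (Q : ℝ) ≤ X → ∀ y : ℝ,
    X * (3 / 2 * Real.log Q - Real.log X - ε * Real.log X) ≤
      ∑ A ∈ (range Q).filter (fun A => A.Coprime Q), (psi X Q A - y) ^ 2 :=
  Pool.Agent.L5helper10.EM.main_all

end Pool.Agent.Results.MP_5d318d_nt.EveryModulusVariance
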