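import Pool.Agent.L5helper62.HM.Count

/-!
# Hooley's conjecture for ALL moduli near the multiples of the members of metric sequences

Let `G(X, Q) = ∑_{a mod Q, (a, Q) = 1} (ψ(X; Q, a) - X / φ(Q))²`. Hooley's conjecture says `G(X, Q) ∼ X log Q` for
`X ^ (1 / 2 + ε) < Q < X`. The starting results show the asymptotic formula, uniformly for
`Q ≤ X ≤ Q (log Q) ^ K`, for almost all the moduli `Q` in many families. There is always an exceptional set of
moduli, and it is not known for a single explicit sequence of moduli that it does not meet the exceptional set. Here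
is a metric theorem without exceptions.

Let `f_0, f_1, …` be functions on `[a, b]` with (for all large `n`)

* `f_n(y) - f_n(x) ≥ δ (y - x) f_n(x)` for `x ≤ y`, with `δ > 0` (for differentiable functions: the logarithmic
  derivative is at least `δ`);
* `f_n(x) ≥ exp (n ^ (1 / C))`, for some `C`.

For example `f_n(x) = x ^ n` for `1 < a` (theorem `powers`), and `f_n(x) = a_n x` for `0 < a` and ANY real numbers
`a_n ≥ exp (n ^ c)`, `c > 0`, such as `n! x`, `2 ^ n x` (theorem `multiples`); nothing else is assumed on the growth, the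
size or the arithmetic of the `a_n`.

**Theorem.** For almost all `x` in `[a, b]` the following is true for all `ε > 0` and all `K`: for ALL `n ≥ n₀(x, ε, K)`
and with `v = ⌊f_n(x)⌋` EVERY modulus `Q = t v + h` with integers `1 ≤ t ≤ (log v) ^ K` and `|h| ≤ (log v) ^ K` satisfies

  `|G(X, Q) - X log Q| ≤ ε X log Q` for ALL real `X` with `Q ≤ X ≤ Q (log Q) ^ K`.

So for almost all `x > 1` the asymptotic formula holds for the sequence of the moduli `Q = ⌊x ^ n⌋`, `n = 1, 2, 3, …`,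
without exceptions, and even for all the integers in the intervals of length `(log Q) ^ K` around them and around
their multiples.

Proof. The starting result `ModuliInClasses` (helper460) with the residue class of `h` modulo `t` shows that at most
`X / (log X) ^ A` of the integers `v` in `[X, 2 X]` have a modulus `t v + h` for which the formula does not hold, for
every `A` (`Pool.Agent.L5helper62.HM.sparse_bad`). The set of the `x` with `⌊f_n(x)⌋ = v` has measure at most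
`2 / (δ v)`, so the sum over `n` of the measures of the exceptional sets converges (there are at most
`(log (v + 1)) ^ C + 1` numbers `n` with `f_n(x) < v + 1`), and the lemma of Borel and Cantelli can be applied.
-/

set_option autoImplicit false

namespace Pool.Agent.Results.MP_5d318d_nt.MetricModuli

open MeasureTheory Filter Topology
open Pool.Agent.Results.MP_5d318d_nt.ModuliInClasses (G)

/-- All the moduli `Q = t v + h` with `1 ≤ t ≤ (log v) ^ K` and `|h| ≤ (log v) ^ K` satisfy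
`|G(X, Q) - X log Q| ≤ ε X log Q` for all real `X` with `Q ≤ X ≤ Q (log Q) ^ K`. -/
def AllNear (ε : ℝ) (K v : ℕ) : Prop :=
  ∀ (t : ℕ) (h : ℤ) (Q : ℕ), 1 ≤ t → (t : ℝ) ≤ Real.log v ^ K → |(h : ℝ)| ≤ Real.log v ^ K →
    (Q : ℤ) = t * v + h → ∀ X : ℝ, (Q : ℝ) ≤ X → X ≤ Q * Real.log Q ^ K →
      |G X Q - X * Real.log Q| ≤ ε * (X * Real.log Q)

theorem allNear_iff (ε : ℝ) (K v : ℕ) : AllNear ε K v ↔ v ∉ Pool.Agent.L5helper62.HM.Bad ε K := by
  constructor
  · rintro h ⟨t, k, Q, h1, h2, h3, h4, h5⟩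
    exact h5 fun X hX1 hX2 => h t k Q h1 h2 h3 h4 X hX1 hX2
  · intro h t k Q h1 h2 h3 h4 X hX1 hX2
    by_contra hcon
    exact h ⟨t, k, Q, h1, h2, h3, h4, fun hg => hcon (hg X hX1 hX2)⟩

/-- The functions `f n` expand on `[a, b]` and are at least `exp (n ^ (1 / C))`, for all large `n`. -/
def Expanding (a b δ : ℝ) (C : ℕ) (f : ℕ → ℝ → ℝ) : Prop :=
  ∀ᶠ n in atTop, (∀ x ∈ Set.Icc a b, ∀ y ∈ Set.Icc a b, x ≤ y →
      δ * (y - x) * f n x ≤ f n y - f n x) ∧
    ∀ x ∈ Set.Icc a b, 1 ≤ f n x ∧ (n : ℝ) ≤ Real.log (f n x) ^ C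

/-- **Hooley's conjecture for all moduli near the multiples of the members of metric sequences.** -/
theorem result (a b δ : ℝ) (hδ : 0 < δ) (C : ℕ) (f : ℕ → ℝ → ℝ) (hf : Expanding a b δ C f) :
    ∀ᵐ x : ℝ, x ∈ Set.Icc a b → ∀ ε : ℝ, 0 < ε → ∀ K : ℕ,
      ∀ᶠ n in atTop, AllNear ε K ⌊f n x⌋₊ := by
  obtain ⟨N₀, hN⟩ := eventually_atTop.1 hf
  have h1 : ∀ j K : ℕ, ∀ᵐ x : ℝ, x ∈ Set.Icc a b →
      ∀ᶠ n in atTop, ⌊f (n + N₀) x⌋₊ ∉ Pool.Agent.L5helper62.HM.Bad (1 / ((j : ℝ) + 1)) K := by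
    intro j K
    refine Pool.Agent.L5helper62.HM.metric hδ (C := C) (fun n => f (n + N₀)) (fun n => ?_) (fun n => ?_)
      (Pool.Agent.L5helper62.HM.sparse_bad _ (by positivity) K)
    · exact (hN (n + N₀) (by omega)).1
    · intro x hx
      obtain ⟨e1, e2⟩ := (hN (n + N₀) (by omega)).2 x hx
      refine ⟨e1, le_trans ?_ e2⟩
      push_cast
      have : (0 : ℝ) ≤ N₀ := Nat.cast_nonneg _
      linarith
  have h2 : ∀ᵐ x : ℝ, ∀ j K : ℕ, x ∈ Set.Icc a b →
      ∀ᶠ n in atTop, ⌊f (n + N₀) x⌋₊ ∉ Pool.Agent.L5helper62.HM.Bad (1 / ((j : ℝ) + 1)) K := by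
    rw [ae_all_iff]
    intro j
    rw [ae_all_iff]
    intro K
    exact h1 j K
  filter_upwards [h2] with x hx hxI ε hε K
  obtain ⟨j, hj⟩ := exists_nat_one_div_lt hε
  obtain ⟨n₀, hn₀⟩ := eventually_atTop.1 (hx j K hxI)
  filter_upwards [eventually_ge_atTop (n₀ + N₀)] with n hn
  have h3 := hn₀ (n - N₀) (by omega)
  rw [show n - N₀ + N₀ = n by omega] at h3
  have h4 := (allNear_iff _ _ _).2 h3
  intro t k Q e1 e2 e3 e4 X hX1 hX2
  refine (h4 t k Q e1 e2 e3 e4 X hX1 hX2).trans ?_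
  refine mul_le_mul_of_nonneg_right hj.le ?_
  have hX0 : (0 : ℝ) ≤ X := (Nat.cast_nonneg Q).trans hX1
  exact mul_nonneg hX0 (Real.log_natCast_nonneg Q)

/-- The powers. -/
theorem powers : ∀ᵐ x : ℝ, 1 < x → ∀ ε : ℝ, 0 < ε → ∀ K : ℕ,
    ∀ᶠ n in atTop, AllNear ε K ⌊x ^ n⌋₊ := by
  have h1 : ∀ j : ℕ, ∀ᵐ x : ℝ, x ∈ Set.Icc (1 + 1 / ((j : ℝ) + 1)) (j + 2) → ∀ ε : ℝ, 0 < ε →
      ∀ K : ℕ, ∀ᶠ n in atTop, AllNear ε K ⌊x ^ n⌋₊ := by
    intro j
    have hj : (0 : ℝ) < 1 / ((j : ℝ) + 1) := by positivity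
    refine result _ _ (1 / ((j : ℝ) + 2)) (by positivity) 2 (fun n x => x ^ n) ?_
    have hl : 0 < Real.log (1 + 1 / ((j : ℝ) + 1)) := Real.log_pos (by linarith)
    have hev : ∀ᶠ n : ℕ in atTop, 1 / Real.log (1 + 1 / ((j : ℝ) + 1)) ^ 2 ≤ n :=
      tendsto_natCast_atTop_atTop.eventually (eventually_ge_atTop _)
    filter_upwards [hev, eventually_ge_atTop 1] with n hn hn1
    refine ⟨fun x hx y hy hxy => ?_, fun x hx => ⟨?_, ?_⟩⟩
    · have hx0 : 0 < x := by linarith [hx.1]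
      obtain ⟨m, rfl⟩ : ∃ m, n = m + 1 := ⟨n - 1, by omega⟩
      have e1 : (y - x) * x ^ m ≤ y ^ (m + 1) - x ^ (m + 1) := by
        have e2 : x ^ m ≤ y ^ m := pow_le_pow_left₀ hx0.le hxy m
        have e3 : 0 ≤ y := by linarith
        calc (y - x) * x ^ m = y * x ^ m - x ^ (m + 1) := by ring
          _ ≤ y * y ^ m - x ^ (m + 1) := by
            have := mul_le_mul_of_nonneg_left e2 e3
            linarith
          _ = y ^ (m + 1) - x ^ (m + 1) := by ring
      refine le_trans ?_ e1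
      have e4 : 1 / ((j : ℝ) + 2) * x ≤ 1 := by
        rw [one_div, inv_mul_le_iff₀ (by positivity)]
        linarith [hx.2]
      calc 1 / ((j : ℝ) + 2) * (y - x) * x ^ (m + 1)
          = (1 / ((j : ℝ) + 2) * x) * ((y - x) * x ^ m) := by ring
        _ ≤ 1 * ((y - x) * x ^ m) :=
          mul_le_mul_of_nonneg_right e4 (mul_nonneg (by linarith) (pow_nonneg hx0.le m))
        _ = (y - x) * x ^ m := one_mul _
    · exact one_le_pow₀ (by linarith [hx.1])
    · rw [Real.log_pow]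
      have e1 : Real.log (1 + 1 / ((j : ℝ) + 1)) ≤ Real.log x :=
        Real.log_le_log (by linarith) hx.1
      have hnr : (1 : ℝ) ≤ n := by exact_mod_cast hn1
      rw [div_le_iff₀ (by positivity)] at hn
      have e2 : Real.log (1 + 1 / ((j : ℝ) + 1)) ^ 2 ≤ Real.log x ^ 2 :=
        pow_le_pow_left₀ hl.le e1 2
      calc (n : ℝ) = n * 1 := (mul_one _).symm
        _ ≤ n * (n * Real.log x ^ 2) := by
          refine mul_le_mul_of_nonneg_left (hn.trans ?_) (by linarith)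
          exact mul_le_mul_of_nonneg_left e2 (by linarith)
        _ = (n * Real.log x) ^ 2 := by ring
  have h2 := ae_all_iff.2 h1
  filter_upwards [h2] with x hx hx1
  obtain ⟨j₁, hj₁⟩ := exists_nat_one_div_lt (sub_pos.2 hx1)
  obtain ⟨j₂, hj₂⟩ := exists_nat_ge x
  refine hx (max j₁ j₂) ⟨?_, ?_⟩
  · have e1 : (1 : ℝ) / (((max j₁ j₂ : ℕ) : ℝ) + 1) ≤ 1 / ((j₁ : ℝ) + 1) := by
      refine one_div_le_one_div_of_le (by positivity) ?_
      have : (j₁ : ℝ) ≤ ((max j₁ j₂ : ℕ) : ℝ) := by exact_mod_cast le_max_left _ _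
      linarith
    linarith
  · have : (j₂ : ℝ) ≤ ((max j₁ j₂ : ℕ) : ℝ) := by exact_mod_cast le_max_right _ _
    linarith

/-- The multiples. -/
theorem multiples (A : ℕ → ℝ) (C : ℕ) (hC : 1 ≤ C)
    (hA : ∀ᶠ n : ℕ in atTop, 1 ≤ A n ∧ (n : ℝ) ≤ Real.log (A n) ^ C) :
    ∀ᵐ x : ℝ, 0 < x → ∀ ε : ℝ, 0 < ε → ∀ K : ℕ, ∀ᶠ n in atTop, AllNear ε K ⌊A n * x⌋₊ := by
  have h1 : ∀ j : ℕ, ∀ᵐ x : ℝ, x ∈ Set.Icc (1 / ((j : ℝ) + 1)) (j + 1) → ∀ ε : ℝ, 0 < ε →
      ∀ K : ℕ, ∀ᶠ n in atTop, AllNear ε K ⌊A n * x⌋₊ := by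
    intro j
    have hj : (0 : ℝ) < 1 / ((j : ℝ) + 1) := by positivity
    refine result _ _ (1 / ((j : ℝ) + 1)) (by positivity) (C + 1) (fun n x => A n * x) ?_
    -- `log (A n) ≥ 2 log (j + 1)` and `n ≥ 2 ^ (C + 1)`
    have hev : ∀ᶠ n : ℕ in atTop, (2 * Real.log ((j : ℝ) + 1) + 2 ^ (C + 1) + 1) ^ C + 1 ≤ n :=
      tendsto_natCast_atTop_atTop.eventually (eventually_ge_atTop _)
    filter_upwards [hA, hev] with n hn hn1
    have hlj : 0 ≤ Real.log ((j : ℝ) + 1) := Real.log_nonneg (by linarith [Nat.cast_nonneg (α := ℝ) j])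
    have hl0 : 0 ≤ Real.log (A n) := Real.log_nonneg hn.1
    have hbig : 2 * Real.log ((j : ℝ) + 1) + 2 ^ (C + 1) + 1 ≤ Real.log (A n) := by
      by_contra hcon
      push Not at hcon
      have := pow_le_pow_left₀ hl0 hcon.le C
      linarith [hn.2]
    have hA0 : 0 < A n := by linarith [hn.1]
    refine ⟨fun x hx y hy hxy => ?_, fun x hx => ?_⟩
    · have e4 : 1 / ((j : ℝ) + 1) * x ≤ 1 := by
        rw [one_div, inv_mul_le_iff₀ (by positivity)]
        linarith [hx.2]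
      calc 1 / ((j : ℝ) + 1) * (y - x) * (A n * x)
          = (1 / ((j : ℝ) + 1) * x) * (A n * (y - x)) := by ring
        _ ≤ 1 * (A n * (y - x)) :=
          mul_le_mul_of_nonneg_right e4 (mul_nonneg hA0.le (by linarith))
        _ = A n * y - A n * x := by ring
    · have hx0 : 0 < x := lt_of_lt_of_le hj hx.1
      have e1 : Real.log (A n * x) = Real.log (A n) + Real.log x := Real.log_mul hA0.ne' hx0.ne'
      have e2 : -Real.log ((j : ℝ) + 1) ≤ Real.log x := by
        have := Real.log_le_log hj hx.1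
        rwa [one_div, Real.log_inv] at this
      have e3 : Real.log (A n) / 2 ≤ Real.log (A n * x) := by
        have : (0 : ℝ) < 2 ^ (C + 1) := by positivity
        linarith
      have e5 : 0 ≤ Real.log (A n * x) := le_trans (by positivity) e3
      refine ⟨?_, ?_⟩
      · by_contra hcon
        push Not at hcon
        have h7 : Real.log (A n * x) < 0 := Real.log_neg (mul_pos hA0 hx0) hcon
        linarith
      · have h8 : (2 : ℝ) ^ (C + 1) ≤ Real.log (A n) := by linarith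
        calc (n : ℝ) ≤ Real.log (A n) ^ C := hn.2
          _ = 2 ^ (C + 1) * Real.log (A n) ^ C / 2 ^ (C + 1) := by field_simp
          _ ≤ Real.log (A n) * Real.log (A n) ^ C / 2 ^ (C + 1) := by
            refine div_le_div_of_nonneg_right ?_ (by positivity)
            exact mul_le_mul_of_nonneg_right h8 (pow_nonneg hl0 C)
          _ = (Real.log (A n) / 2) ^ (C + 1) := by rw [div_pow]; ring
          _ ≤ Real.log (A n * x) ^ (C + 1) := pow_le_pow_left₀ (by positivity) e3 _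
  have h2 := ae_all_iff.2 h1
  filter_upwards [h2] with x hx hx1
  obtain ⟨j₁, hj₁⟩ := exists_nat_one_div_lt hx1
  obtain ⟨j₂, hj₂⟩ := exists_nat_ge x
  refine hx (max j₁ j₂) ⟨?_, ?_⟩
  · have e1 : (1 : ℝ) / (((max j₁ j₂ : ℕ) : ℝ) + 1) ≤ 1 / ((j₁ : ℝ) + 1) := by
      refine one_div_le_one_div_of_le (by positivity) ?_
      have : (j₁ : ℝ) ≤ ((max j₁ j₂ : ℕ) : ℝ) := by exact_mod_cast le_max_left _ _
      linarith
    linarith
  · have : (j₂ : ℝ) ≤ ((max j₁ j₂ : ℕ) : ℝ) := by exact_mod_cast le_max_right _ _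
    linarith

end Pool.Agent.Results.MP_5d318d_nt.MetricModuli
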